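import Pool.Agent.QUD.StmtsU

/-!
Row ANF of squad QUD (MP_5b0138_an): the kernel is analytic, and its derivative at zero.
-/

set_option autoImplicit false

namespace Pool.Agent.QUD.H37

open MeasureTheory Filter Topology Real Set Pool.Agent.AEU Pool.Agent.AEU.H12 Pool.Agent.XQ
  Pool.Agent.XQ.U Pool.Agent.QUD


theorem anl (F : ℝ → ℝ) (f : ℕ → ℝ) (R : ℝ) (hR : 0 < R)
    (hs : ∀ ζ : ℝ, |ζ| < R → HasSum (fun m => f m * ζ ^ m) (F ζ)) :
    AnalyticOnNhd ℝ F (Ioo (-R) R) := by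
  have hp : HasFPowerSeriesOnBall F (FormalMultilinearSeries.ofScalars ℝ f) 0
      (ENNReal.ofReal R) := by
    refine ⟨?_, ENNReal.ofReal_pos.mpr hR, ?_⟩
    · refine ENNReal.le_of_forall_nnreal_lt fun r hr => ?_
      have hr' : (r : ℝ) < R := by
        have := (ENNReal.lt_ofReal_iff_toReal_lt ENNReal.coe_ne_top).mp hr
        simpa using this
      refine FormalMultilinearSeries.le_radius_of_summable_norm _ ?_
      have h1 : Summable (fun m => |f m * (r : ℝ) ^ m|) :=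
        (hs r (by rw [abs_of_nonneg r.coe_nonneg]; exact hr')).summable.abs
      refine h1.congr fun n => ?_
      rw [FormalMultilinearSeries.ofScalars_norm, Real.norm_eq_abs, abs_mul,
        abs_of_nonneg (pow_nonneg r.coe_nonneg n)]
    · intro y hy
      have hy' : |y| < R := by
        rw [Metric.mem_eball, edist_dist, ENNReal.ofReal_lt_ofReal_iff hR, Real.dist_eq,
          sub_zero] at hy
        exact hy
      have h1 := hs y hy'
      rw [zero_add]
      have e : (fun n => FormalMultilinearSeries.ofScalars ℝ f n (fun _ => y)) =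
          fun n => f n * y ^ n := by
        funext n
        rw [FormalMultilinearSeries.ofScalars_apply_eq, smul_eq_mul]
      rw [e]
      exact h1
  have h2 := hp.analyticOnNhd
  intro z hz
  refine h2 z ?_
  rw [Metric.mem_eball, edist_dist, ENNReal.ofReal_lt_ofReal_iff hR, Real.dist_eq, sub_zero]
  exact abs_lt.mpr hz

theorem dv (F : ℝ → ℝ) (x K D c : ℝ) (hc : c < 1)
    (hF : ∀ ζ : ℝ, 0 ≤ ζ → F ζ = K / (cos (2 * x * arcsin (√ζ)) - c))
    (hD : HasDerivAt F D 0) : D = K * 2 * x ^ 2 / (1 - c) ^ 2 := by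
  have hc' : 0 < 1 - c := by linarith
  -- sin (x φ) / φ → x
  have l1 : ∀ y : ℝ, Tendsto (fun φ : ℝ => sin (y * φ) / φ) (𝓝[>] 0) (𝓝 y) := by
    intro y
    have h1 : HasDerivAt (fun φ : ℝ => sin (y * φ)) (cos (y * 0) * (y * 1)) 0 :=
      ((hasDerivAt_id (0 : ℝ)).const_mul y).sin
    rw [hasDerivAt_iff_tendsto_slope_zero] at h1
    have h2 := h1.mono_left (nhdsWithin_mono (0 : ℝ) (fun t (ht : 0 < t) => ht.ne'))
    simp only [mul_zero, cos_zero, mul_one, one_mul, zero_add, sin_zero, sub_zero,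
      smul_eq_mul] at h2
    refine h2.congr fun t => ?_
    rw [div_eq_inv_mul]
  have l2 : Tendsto (fun φ : ℝ => (sin (x * φ) / φ) / (sin (1 * φ) / φ)) (𝓝[>] 0) (𝓝 (x / 1)) :=
    (l1 x).div (l1 1) one_ne_zero
  have l3 : Tendsto (fun φ : ℝ => cos (2 * x * φ) - c) (𝓝[>] 0) (𝓝 (1 - c)) := by
    have h1 : ContinuousAt (fun φ : ℝ => cos (2 * x * φ) - c) 0 := by fun_prop
    have h2 := h1.tendsto
    simp only [mul_zero, cos_zero] at h2
    exact h2.mono_left nhdsWithin_le_nhds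
  have l4 : Tendsto (fun φ : ℝ => K * 2 * ((sin (x * φ) / φ) / (sin (1 * φ) / φ)) ^ 2 /
      ((cos (2 * x * φ) - c) * (1 - c))) (𝓝[>] 0) (𝓝 (K * 2 * (x / 1) ^ 2 /
      ((1 - c) * (1 - c)))) :=
    ((l2.pow 2).const_mul (K * 2)).div (l3.mul_const (1 - c)) (by positivity)
  -- the slope along sin²
  rw [hasDerivAt_iff_tendsto_slope_zero] at hD
  have hmem : ∀ᶠ φ : ℝ in 𝓝[>] 0, φ ∈ Ioo 0 (π / 2) :=
    Ioo_mem_nhdsGT (by positivity)
  have hsin : Tendsto (fun φ : ℝ => sin φ ^ 2) (𝓝[>] 0) (𝓝[≠] 0) := by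
    rw [tendsto_nhdsWithin_iff]
    constructor
    · have h1 : ContinuousAt (fun φ : ℝ => sin φ ^ 2) 0 := by fun_prop
      have h2 := h1.tendsto
      simp only [sin_zero, ne_eq, OfNat.ofNat_ne_zero, not_false_eq_true, zero_pow] at h2
      exact h2.mono_left nhdsWithin_le_nhds
    · filter_upwards [hmem] with φ hφ
      have : 0 < sin φ := sin_pos_of_pos_of_lt_pi hφ.1 (by linarith [hφ.2, pi_pos])
      exact (pow_pos this 2).ne'
  have l5 := hD.comp hsin
  have hne : ∀ᶠ φ : ℝ in 𝓝[>] 0, cos (2 * x * φ) - c ≠ 0 :=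
    l3.eventually_ne hc'.ne'
  have l6 : Tendsto (fun φ : ℝ => K * 2 * ((sin (x * φ) / φ) / (sin (1 * φ) / φ)) ^ 2 /
      ((cos (2 * x * φ) - c) * (1 - c))) (𝓝[>] 0) (𝓝 D) := by
    refine l5.congr' ?_
    filter_upwards [hmem, hne] with φ hφ hn
    have hsp : 0 < sin φ := sin_pos_of_pos_of_lt_pi hφ.1 (by linarith [hφ.2, pi_pos])
    have hφ0 : φ ≠ 0 := hφ.1.ne'
    simp only [Function.comp_apply, zero_add, smul_eq_mul, one_mul]
    rw [hF _ (sq_nonneg _), hF 0 le_rfl, Real.sqrt_sq hsp.le,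
      arcsin_sin (by linarith [hφ.1, pi_pos]) hφ.2.le, Real.sqrt_zero, arcsin_zero, mul_zero,
      cos_zero]
    have h3 : cos (2 * x * φ) = 1 - 2 * sin (x * φ) ^ 2 := by
      have : 2 * x * φ = 2 * (x * φ) := by ring
      rw [this, cos_two_mul, cos_sq']
      ring
    have hc0 : (1 - c) ≠ 0 := hc'.ne'
    have e1 : K / (cos (2 * x * φ) - c) - K / (1 - c) =
        K * (1 - cos (2 * x * φ)) / ((cos (2 * x * φ) - c) * (1 - c)) := by
      field_simp
      ring
    have e2 : 1 - cos (2 * x * φ) = 2 * sin (x * φ) ^ 2 := by rw [h3]; ring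
    have e3 : (sin (x * φ) / φ) / (sin φ / φ) = sin (x * φ) / sin φ := by
      field_simp
    rw [e1, e2, e3, div_pow]
    field_simp
  have := tendsto_nhds_unique l6 l4
  rw [this]
  ring


theorem anf (hFser : FserStmt) : AnfStmt := by
  intro x hx
  obtain ⟨f, -, hf⟩ := hFser x hx
  have hx0 : (0 : ℝ) < x := by linarith [hx.1]
  have hzb : 0 < zb x := by
    unfold zb
    have h1 : π / x < π := by
      rw [div_lt_iff₀ hx0]
      nlinarith [pi_pos, hx.1]
    have h2 : π / 2 < π / x := by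
      rw [div_lt_div_iff₀ two_pos hx0]
      nlinarith [pi_pos, hx.2]
    have h3 : cos (π / x) < 0 := cos_neg_of_pi_div_two_lt_of_lt h2 (by linarith [pi_pos])
    nlinarith
  have hA := anl (FR x) f (zb x) hzb hf
  refine ⟨hA, ?_⟩
  have hD : HasDerivAt (FR x) (deriv (FR x) 0) 0 :=
    (hA 0 ⟨by linarith, hzb⟩).differentiableAt.hasDerivAt
  have hc : cos (x * π) < 1 := by
    have hs : 0 < sin (x * π - π) :=
      sin_pos_of_pos_of_lt_pi (by nlinarith [pi_pos, hx.1]) (by nlinarith [pi_pos, hx.2])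
    rw [sin_sub_pi] at hs
    have h4 := sin_sq_add_cos_sq (x * π)
    have h5 : 0 < sin (x * π) ^ 2 := by nlinarith
    nlinarith [cos_le_one (x * π)]
  have hk := dv (FR x) x (x / 2 * (-sin (x * π))) _ (cos (x * π)) hc (by
    intro ζ hζ
    unfold FR
    rw [if_pos hζ]) hD
  rw [hk] at hD
  have e : x / 2 * (-sin (x * π)) * 2 * x ^ 2 / (1 - cos (x * π)) ^ 2 = FA x := by
    unfold FA CC
    ring
  rw [e] at hD
  exact hD

end Pool.Agent.QUD.H37
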