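import Pool.Agent.QUD.StmtsR

/-!
Row FCE of squad QUD (MP_5b0138_an): strip quadrilaterals with equal slants.
-/

set_option autoImplicit false

namespace Pool.Agent.QUD.H37

open MeasureTheory Complex Pool.Agent.H16Iso
open Pool.Agent.H1Gen (det CCW poly)
open Pool.Agent.QUD

theorem fce (hCGR : CgrStmt) (hSSY : SsyStmt) : FceStmt := by
  obtain ⟨crefl, csymm, ctrans⟩ := hCGR
  intro h B δ ε B' δ' ε' hh hB hT hBe hBd hm hab
  -- replacing the second set by a congruent one
  have move : ∀ (P Q Q' : Set ℂ), Congruent Q Q' → (Congruent P Q' ∨ FlpS P Q') →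
      (Congruent P Q ∨ FlpS P Q) := by
    intro P Q Q' hQ hor
    rcases hor with h1 | h1
    · exact Or.inl (ctrans _ _ _ h1 (csymm _ _ hQ))
    · obtain ⟨h2, B2, d2, e2, a1, a2, a3, a4, a5, a6, a7⟩ := h1
      exact Or.inr ⟨h2, B2, d2, e2, a1, a2, a3, a4, a5, a6, ctrans _ _ _ hQ a7⟩
  -- equal first slants
  have core : ∀ B'' ε'' : ℝ, B + (ε - δ) / 2 = B'' + (ε'' - δ) / 2 → |ε| = |ε''| →
      Congruent (poly (sq h B δ ε)) (poly (sq h B'' δ ε'')) ∨
        FlpS (poly (sq h B δ ε)) (poly (sq h B'' δ ε'')) := by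
    intro B'' ε'' hm' he
    rcases abs_eq_abs.mp he with h1 | h1
    · have hB2 : B'' = B := by rw [h1] at hm'; linarith
      rw [hB2, ← h1]
      exact Or.inl (crefl _)
    · have h2 : ε'' = -ε := by linarith
      have hB2 : B'' = B + ε := by rw [h2] at hm'; linarith
      rw [hB2, h2]
      exact Or.inr ⟨h, B, δ, ε, hh, hB, hT, hBe, hBd, crefl _, crefl _⟩
  -- slants with equal absolute values, in the same order
  have core2 : ∀ B'' δ'' ε'' : ℝ, B + (ε - δ) / 2 = B'' + (ε'' - δ'') / 2 → |δ| = |δ''| →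
      |ε| = |ε''| → Congruent (poly (sq h B δ ε)) (poly (sq h B'' δ'' ε'')) ∨
        FlpS (poly (sq h B δ ε)) (poly (sq h B'' δ'' ε'')) := by
    intro B'' δ'' ε'' hm' hd he
    rcases abs_eq_abs.mp hd with h1 | h1
    · rw [← h1]
      exact core B'' ε'' (by rw [h1] at hm' ⊢; exact hm') he
    · refine move _ _ _ (hSSY h B'' δ'' ε'').1 ?_
      have h2 : -δ'' = δ := h1.symm
      rw [h2]
      refine core _ _ ?_ (by rw [abs_neg]; exact he)
      have h3 : δ'' = -δ := by linarith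
      rw [h3] at hm' ⊢
      linarith
  rcases hab with ⟨h1, h2⟩ | ⟨h1, h2⟩
  · exact core2 _ _ _ hm h1 h2
  · refine move _ _ _ (hSSY h B' δ' ε').2 ?_
    refine core2 _ _ _ ?_ h1 h2
    linarith

end Pool.Agent.QUD.H37
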