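import Pool.Agent.QUD.StmtsV

/-!
Row INV of squad QUD (MP_5b0138_an): the involution.
-/

set_option autoImplicit false

namespace Pool.Agent.QUD.H37

open MeasureTheory Filter Topology Real Set
open Pool.Agent.QUD

theorem inv : InvStmt := by
  intro z G hz0 hz1
  have hs2 : 0 < 1 - z := by linarith
  have hs : 0 < √(1 - z) := Real.sqrt_pos.mpr hs2
  have hsq : √(1 - z) ^ 2 = 1 - z := Real.sq_sqrt hs2.le
  set s := √(1 - z) with hsdef
  have hden : ∀ u : ℝ, 0 < 1 - z * sin u ^ 2 := by
    intro u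
    nlinarith [Real.sin_sq_le_one u, sq_nonneg (sin u)]
  -- the substitution
  let φ : ℝ → ℝ := fun u => π / 2 - arctan (s * tan u)
  have hcos : ∀ u ∈ Ioo 0 (π / 2), 0 < cos u := by
    intro u hu
    exact Real.cos_pos_of_mem_Ioo ⟨by linarith [hu.1, Real.pi_pos], hu.2⟩
  have hca : ∀ u ∈ Ioo 0 (π / 2), cos (arctan (s * tan u)) ^ 2 = cos u ^ 2 / (1 - z * sin u ^ 2) := by
    intro u hu
    have hc := hcos u hu
    have hd := hden u
    rw [Real.cos_sq_arctan, mul_pow, hsq, Real.tan_eq_sin_div_cos, div_pow]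
    have h1 : 1 + (1 - z) * (sin u ^ 2 / cos u ^ 2) = (1 - z * sin u ^ 2) / cos u ^ 2 := by
      field_simp
      nlinarith [Real.sin_sq_add_cos_sq u]
    rw [h1, one_div_div]
  have hX : ∀ u ∈ Ioo 0 (π / 2), z * sin (φ u) ^ 2 = Yv z u := by
    intro u hu
    show z * sin (π / 2 - arctan (s * tan u)) ^ 2 = _
    rw [Real.sin_pi_div_two_sub, hca u hu]
    unfold Yv
    ring
  have hY : ∀ u ∈ Ioo 0 (π / 2), Yv z (φ u) = z * sin u ^ 2 := by
    intro u hu
    have hd := hden u
    have h1 : cos (φ u) ^ 2 = (1 - z) * sin u ^ 2 / (1 - z * sin u ^ 2) := by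
      have h2 : cos (φ u) ^ 2 = 1 - sin (φ u) ^ 2 := by
        have := Real.sin_sq_add_cos_sq (φ u)
        linarith
      have h3 : sin (φ u) ^ 2 = cos u ^ 2 / (1 - z * sin u ^ 2) := by
        show sin (π / 2 - arctan (s * tan u)) ^ 2 = _
        rw [Real.sin_pi_div_two_sub, hca u hu]
      rw [h2, h3]
      field_simp
      have := Real.sin_sq_add_cos_sq u
      linarith
    have h4 : 1 - z * sin (φ u) ^ 2 = (1 - z) / (1 - z * sin u ^ 2) := by
      rw [hX u hu]
      unfold Yv
      field_simp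
      have := Real.sin_sq_add_cos_sq u
      nlinarith
    unfold Yv
    rw [h1, h4]
    field_simp
  have hR : ∀ u ∈ Ioo 0 (π / 2), √(1 - z * sin (φ u) ^ 2) = s / √(1 - z * sin u ^ 2) := by
    intro u hu
    have hd := hden u
    have h4 : 1 - z * sin (φ u) ^ 2 = (1 - z) / (1 - z * sin u ^ 2) := by
      rw [hX u hu]
      unfold Yv
      field_simp
      have := Real.sin_sq_add_cos_sq u
      nlinarith
    rw [h4, Real.sqrt_div hs2.le]
  have hderiv : ∀ u ∈ Ioo 0 (π / 2),
      HasDerivWithinAt φ (-(s / (1 - z * sin u ^ 2))) (Ioo 0 (π / 2)) u := by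
    intro u hu
    have hc := hcos u hu
    have hd := hden u
    have h1 : HasDerivAt (fun u => s * tan u) (s * (1 / cos u ^ 2)) u :=
      (Real.hasDerivAt_tan hc.ne').const_mul s
    have h2 := h1.arctan
    have h3 := (h2.const_sub (π / 2)).hasDerivWithinAt (s := Ioo 0 (π / 2))
    have h4 : -(1 / (1 + (s * tan u) ^ 2) * (s * (1 / cos u ^ 2))) =
        -(s / (1 - z * sin u ^ 2)) := by
      have h5 : 1 + (s * tan u) ^ 2 = (1 - z * sin u ^ 2) / cos u ^ 2 := by
        rw [mul_pow, hsq, Real.tan_eq_sin_div_cos, div_pow]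
        field_simp
        nlinarith [Real.sin_sq_add_cos_sq u]
      rw [h5]
      field_simp
    rw [h4] at h3
    exact h3
  have hinj : InjOn φ (Ioo 0 (π / 2)) := by
    intro u hu v hv huv
    have h1 : arctan (s * tan u) = arctan (s * tan v) := by
      have : π / 2 - arctan (s * tan u) = π / 2 - arctan (s * tan v) := huv
      linarith
    have h2 : s * tan u = s * tan v := Real.arctan_injective h1
    have h3 : tan u = tan v := mul_left_cancel₀ hs.ne' h2
    rw [← Real.arctan_tan (by linarith [hu.1, Real.pi_pos]) hu.2, h3,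
      Real.arctan_tan (by linarith [hv.1, Real.pi_pos]) hv.2]
  have himg : φ '' (Ioo 0 (π / 2)) = Ioo 0 (π / 2) := by
    apply Subset.antisymm
    · rintro _ ⟨u, hu, rfl⟩
      have ht : 0 < tan u := Real.tan_pos_of_pos_of_lt_pi_div_two hu.1 hu.2
      have ha : 0 < arctan (s * tan u) := Real.arctan_pos.mpr (mul_pos hs ht)
      have hb := Real.arctan_lt_pi_div_two (s * tan u)
      exact ⟨by show 0 < π / 2 - arctan (s * tan u); linarith,
        by show π / 2 - arctan (s * tan u) < π / 2; linarith⟩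
    · intro t ht
      have ht' : 0 < π / 2 - t := by linarith [ht.2]
      have ht2 : π / 2 - t < π / 2 := by linarith [ht.1]
      have h1 : 0 < tan (π / 2 - t) := Real.tan_pos_of_pos_of_lt_pi_div_two ht' ht2
      refine ⟨arctan (tan (π / 2 - t) / s), ⟨Real.arctan_pos.mpr (div_pos h1 hs),
        Real.arctan_lt_pi_div_two _⟩, ?_⟩
      show π / 2 - arctan (s * tan (arctan (tan (π / 2 - t) / s))) = t
      rw [Real.tan_arctan, mul_div_cancel₀ _ hs.ne', Real.arctan_tan (by linarith) ht2]
      ring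
  have key := integral_image_eq_integral_abs_deriv_smul measurableSet_Ioo hderiv hinj
    (fun t => G (z * sin t ^ 2) (Yv z t) / √(1 - z * sin t ^ 2))
  rw [himg] at key
  rw [key]
  refine setIntegral_congr_fun measurableSet_Ioo ?_
  intro u hu
  have hd := hden u
  have hr : 0 < √(1 - z * sin u ^ 2) := Real.sqrt_pos.mpr hd
  have hr2 : √(1 - z * sin u ^ 2) ^ 2 = 1 - z * sin u ^ 2 := Real.sq_sqrt hd.le
  simp only [smul_eq_mul]
  rw [hX u hu, hY u hu]
  have h5 := hR u hu
  rw [hX u hu] at h5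
  rw [h5, abs_neg, abs_of_pos (div_pos hs hd)]
  nth_rewrite 1 [← hr2]
  field_simp

end Pool.Agent.QUD.H37
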