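import Pool.Agent.QUD.StmtsR

/-!
Row SFO of squad QUD (MP_5b0138_an): the strip quadrilaterals.
-/

set_option autoImplicit false

namespace Pool.Agent.QUD.H37

open MeasureTheory Complex Pool.Agent.H16Iso
open Pool.Agent.H1Gen (det CCW poly)
open Pool.Agent.QUD

theorem nrm (a b : ℝ) : ‖(⟨a, b⟩ : ℂ)‖ = Real.sqrt (a ^ 2 + b ^ 2) := by
  rw [Complex.norm_def, Complex.normSq_apply]
  congr 1
  ring

theorem asn (h d : ℝ) (hh : 0 < h) :
    Real.arcsin (d / Real.sqrt (h ^ 2 + d ^ 2)) = Real.arctan (d / h) := by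
  rw [Real.arctan_eq_arcsin]
  congr 1
  have h1 : 1 + (d / h) ^ 2 = (h ^ 2 + d ^ 2) / h ^ 2 := by
    field_simp
  rw [h1, Real.sqrt_div (by positivity), Real.sqrt_sq hh.le]
  have h2 : Real.sqrt (h ^ 2 + d ^ 2) ≠ 0 := by
    have : 0 < h ^ 2 + d ^ 2 := by positivity
    exact (Real.sqrt_pos.mpr this).ne'
  field_simp

theorem ac1 (h d c : ℝ) (hh : 0 < h) (hc : 0 < c) :
    Real.arccos (d * c / (Real.sqrt (h ^ 2 + d ^ 2) * c)) = Real.pi / 2 - Real.arctan (d / h) := by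
  rw [mul_div_mul_right _ _ hc.ne', Real.arccos, asn h d hh]

theorem ac2 (h d c : ℝ) (hh : 0 < h) (hc : 0 < c) :
    Real.arccos (-(d * c) / (Real.sqrt (h ^ 2 + d ^ 2) * c)) =
      Real.pi / 2 + Real.arctan (d / h) := by
  rw [neg_div, mul_div_mul_right _ _ hc.ne', Real.arccos, Real.arcsin_neg, asn h d hh]
  ring

theorem sfo : SfoStmt := by
  intro h B δ ε hh hB hT
  have e01 : sq h B δ ε 1 - sq h B δ ε 0 = ⟨-δ, -h⟩ := by
    apply Complex.ext <;> simp [sq] <;> ring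
  have e02 : sq h B δ ε 2 - sq h B δ ε 0 = ⟨B - δ, -h⟩ := by
    apply Complex.ext <;> simp [sq] <;> ring
  have e03 : sq h B δ ε 3 - sq h B δ ε 0 = ⟨B + ε - δ, 0⟩ := by
    apply Complex.ext <;> simp [sq]
  have e12 : sq h B δ ε 2 - sq h B δ ε 1 = ⟨B, 0⟩ := by
    apply Complex.ext <;> simp [sq]
  have e13 : sq h B δ ε 3 - sq h B δ ε 1 = ⟨B + ε, h⟩ := by
    apply Complex.ext <;> simp [sq]
  have e23 : sq h B δ ε 3 - sq h B δ ε 2 = ⟨ε, h⟩ := by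
    apply Complex.ext <;> simp [sq]
  have e10 : sq h B δ ε 0 - sq h B δ ε 1 = ⟨δ, h⟩ := by
    apply Complex.ext <;> simp [sq]
  have e21 : sq h B δ ε 1 - sq h B δ ε 2 = ⟨-B, 0⟩ := by
    apply Complex.ext <;> simp [sq]
  have e30 : sq h B δ ε 0 - sq h B δ ε 3 = ⟨-(B + ε - δ), 0⟩ := by
    apply Complex.ext <;> simp [sq]
  have e32 : sq h B δ ε 2 - sq h B δ ε 3 = ⟨-ε, -h⟩ := by
    apply Complex.ext <;> simp [sq] <;> ring
  have n01 : ‖sq h B δ ε 1 - sq h B δ ε 0‖ = Real.sqrt (h ^ 2 + δ ^ 2) := by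
    rw [e01, nrm]; congr 1; ring
  have n10 : ‖sq h B δ ε 0 - sq h B δ ε 1‖ = Real.sqrt (h ^ 2 + δ ^ 2) := by
    rw [e10, nrm]; congr 1; ring
  have n03 : ‖sq h B δ ε 3 - sq h B δ ε 0‖ = B + ε - δ := by
    rw [e03, nrm]
    have : (B + ε - δ) ^ 2 + 0 ^ 2 = (B + ε - δ) ^ 2 := by ring
    rw [this, Real.sqrt_sq hT.le]
  have n30 : ‖sq h B δ ε 0 - sq h B δ ε 3‖ = B + ε - δ := by
    rw [e30, nrm]
    have : (-(B + ε - δ)) ^ 2 + 0 ^ 2 = (B + ε - δ) ^ 2 := by ring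
    rw [this, Real.sqrt_sq hT.le]
  have n12 : ‖sq h B δ ε 2 - sq h B δ ε 1‖ = B := by
    rw [e12, nrm]
    have : B ^ 2 + 0 ^ 2 = B ^ 2 := by ring
    rw [this, Real.sqrt_sq hB.le]
  have n21 : ‖sq h B δ ε 1 - sq h B δ ε 2‖ = B := by
    rw [e21, nrm]
    have : (-B) ^ 2 + 0 ^ 2 = B ^ 2 := by ring
    rw [this, Real.sqrt_sq hB.le]
  have n23 : ‖sq h B δ ε 3 - sq h B δ ε 2‖ = Real.sqrt (h ^ 2 + ε ^ 2) := by
    rw [e23, nrm]; congr 1; ring
  have n32 : ‖sq h B δ ε 2 - sq h B δ ε 3‖ = Real.sqrt (h ^ 2 + ε ^ 2) := by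
    rw [e32, nrm]; congr 1; ring
  refine ⟨?_, ?_, ?_, ?_, ?_, ?_, ?_⟩
  · have c012 : 0 < det (sq h B δ ε 1 - sq h B δ ε 0) (sq h B δ ε 2 - sq h B δ ε 0) := by
      rw [e01, e02]
      have : det ⟨-δ, -h⟩ ⟨B - δ, -h⟩ = h * B := by unfold det; ring
      rw [this]; positivity
    have c013 : 0 < det (sq h B δ ε 1 - sq h B δ ε 0) (sq h B δ ε 3 - sq h B δ ε 0) := by
      rw [e01, e03]
      have : det ⟨-δ, -h⟩ ⟨B + ε - δ, 0⟩ = h * (B + ε - δ) := by unfold det; ring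
      rw [this]; positivity
    have c023 : 0 < det (sq h B δ ε 2 - sq h B δ ε 0) (sq h B δ ε 3 - sq h B δ ε 0) := by
      rw [e02, e03]
      have : det ⟨B - δ, -h⟩ ⟨B + ε - δ, 0⟩ = h * (B + ε - δ) := by unfold det; ring
      rw [this]; positivity
    have c123 : 0 < det (sq h B δ ε 2 - sq h B δ ε 1) (sq h B δ ε 3 - sq h B δ ε 1) := by
      rw [e12, e13]
      have : det ⟨B, 0⟩ ⟨B + ε, h⟩ = h * B := by unfold det; ring
      rw [this]; positivity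
    intro i j k hij hjk
    have hi : ∀ a b : Fin 4, a < b → (a : ℕ) < b := fun a b hab => hab
    fin_cases i <;> fin_cases j <;> fin_cases k <;>
      first
        | exact c012
        | exact c013
        | exact c023
        | exact c123
        | exact absurd hij (by decide)
        | exact absurd hjk (by decide)
  · unfold ar
    rw [e01, e02, e03]
    unfold det
    simp only
    ring
  · unfold pm en
    have h0 : (0 : Fin 4) + 1 = 1 := rfl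
    have h1 : (1 : Fin 4) + 1 = 2 := rfl
    have h2 : (2 : Fin 4) + 1 = 3 := rfl
    have h3 : (3 : Fin 4) + 1 = 0 := rfl
    rw [h0, h1, h2, h3, n01, n12, n23, n30]
  · have h0 : (0 : Fin 4) + 1 = 1 := rfl
    have h1 : (0 : Fin 4) + 3 = 3 := rfl
    unfold an
    rw [h0, h1, n01, n03, e01, e03]
    have : sp ⟨-δ, -h⟩ ⟨B + ε - δ, 0⟩ = -(δ * (B + ε - δ)) := by unfold sp; ring
    rw [this]
    exact ac2 h δ _ hh hT
  · have h0 : (1 : Fin 4) + 1 = 2 := rfl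
    have h1 : (1 : Fin 4) + 3 = 0 := rfl
    unfold an
    rw [h0, h1, n12, n10, e12, e10]
    have : sp ⟨B, 0⟩ ⟨δ, h⟩ = δ * B := by unfold sp; ring
    rw [this, mul_comm B]
    exact ac1 h δ _ hh hB
  · have h0 : (2 : Fin 4) + 1 = 3 := rfl
    have h1 : (2 : Fin 4) + 3 = 1 := rfl
    unfold an
    rw [h0, h1, n23, n21, e23, e21]
    have : sp ⟨ε, h⟩ ⟨-B, 0⟩ = -(ε * B) := by unfold sp; ring
    rw [this]
    exact ac2 h ε _ hh hB
  · have h0 : (3 : Fin 4) + 1 = 0 := rfl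
    have h1 : (3 : Fin 4) + 3 = 2 := rfl
    unfold an
    rw [h0, h1, n30, n32, e30, e32]
    have : sp ⟨-(B + ε - δ), 0⟩ ⟨-ε, -h⟩ = ε * (B + ε - δ) := by unfold sp; ring
    rw [this, mul_comm (B + ε - δ)]
    exact ac1 h ε _ hh hT

end Pool.Agent.QUD.H37
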