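import Pool.Agent.QUD.StmtsF

/-!
Row SPN of squad QUD (MP_5b0138_an): the spin inequality.
-/

set_option autoImplicit false

namespace Pool.Agent.QUD.H37

open MeasureTheory Complex Filter Topology ProbabilityTheory Pool.Agent.H16Iso Pool.Agent.H62T
open Pool.Agent.AEU Pool.Agent.QUD

theorem alg (S T H H' L L' A B : ℝ) (hS : 0 ≤ S) (hT : 0 ≤ T) (hA : 0 ≤ A) (hB : 0 ≤ B)
    (hH : |H'| ≤ H) (hL : |L'| ≤ L) :
    |S * T * A + H' * L' * B| ≤ S * T * A + H * L * B ∧
    |H' * T * A + S * L' * B| ≤ H * T * A + S * L * B := by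
  have hH0 : 0 ≤ H := (abs_nonneg _).trans hH
  have hL0 : 0 ≤ L := (abs_nonneg _).trans hL
  constructor
  · calc |S * T * A + H' * L' * B| ≤ |S * T * A| + |H' * L' * B| := abs_add_le _ _
      _ = S * T * A + |H'| * |L'| * B := by
          rw [abs_of_nonneg (mul_nonneg (mul_nonneg hS hT) hA), abs_mul, abs_mul, abs_of_nonneg hB]
      _ ≤ S * T * A + H * L * B := by
          have : |H'| * |L'| ≤ H * L := mul_le_mul hH hL (abs_nonneg _) hH0
          nlinarith [mul_le_mul_of_nonneg_right this hB]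
  · calc |H' * T * A + S * L' * B| ≤ |H' * T * A| + |S * L' * B| := abs_add_le _ _
      _ = |H'| * T * A + S * |L'| * B := by
          rw [abs_mul, abs_mul, abs_of_nonneg hT, abs_of_nonneg hA, abs_mul, abs_mul,
            abs_of_nonneg hS, abs_of_nonneg hB]
      _ ≤ H * T * A + S * L * B := by
          have h1 : |H'| * (T * A) ≤ H * (T * A) :=
            mul_le_mul_of_nonneg_right hH (mul_nonneg hT hA)
          have h2 : |L'| * (S * B) ≤ L * (S * B) :=
            mul_le_mul_of_nonneg_right hL (mul_nonneg hS hB)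
          nlinarith

/-- the base case, as an inequality between numbers -/
theorem base (d0 d1 f0 f1 d0' d1' f0' f1' g0 g1 p q : ℝ) (h0 : 0 ≤ d0) (h1 : 0 ≤ d1)
    (h2 : 0 ≤ f0) (h3 : 0 ≤ f1) (hg1 : 0 ≤ g1) (hg : g1 ≤ g0)
    (hd : d0' + d1' = d0 + d1) (hd' : |d0' - d1'| ≤ d0 - d1)
    (hf : f0' + f1' = f0 + f1) (hf' : |f0' - f1'| ≤ f0 - f1)
    (hp : p = 1 ∨ p = -1) (hq : q = 1 ∨ q = -1) :
    |d0' * f0' * g0 + q * (d0' * f1' * g1) + p * (d1' * f0' * g1) + p * q * (d1' * f1' * g0)| ≤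
      d0 * f0 * g0 + q * (d0 * f1 * g1) + p * (d1 * f0 * g1) + p * q * (d1 * f1 * g0) := by
  have hS : 0 ≤ d0 + d1 := by linarith
  have hT : 0 ≤ f0 + f1 := by linarith
  have hA : 0 ≤ (g0 + g1) / 2 := by linarith
  have hB : 0 ≤ (g0 - g1) / 2 := by linarith
  have a1 := alg (d0 + d1) (f0 + f1) (d0 - d1) (d0' - d1') (f0 - f1) (f0' - f1') _ _ hS hT hA hB
    hd' hf'
  have a2 := alg (d0 + d1) (f0 + f1) (d0 - d1) (d0' - d1') (f0 - f1) (f0' - f1') _ _ hS hT hB hA
    hd' hf'
  have e1 : d0' = d0 + d1 - d1' := by linarith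
  have e2 : f0' = f0 + f1 - f1' := by linarith
  have key : ∀ u v u' v' : ℝ, u' = u → v' = v → |u| ≤ v → |u'| ≤ v' := by
    intro u v u' v' hu hv h
    rw [hu, hv]; exact h
  rcases hp with rfl | rfl <;> rcases hq with rfl | rfl
  · refine key _ _ _ _ ?_ ?_ a1.1
    · rw [← hd, ← hf]; ring
    · ring
  · refine key _ _ _ _ ?_ ?_ a2.2
    · rw [← hd, ← hf]; ring
    · ring
  · refine key _ _ _ _ ?_ ?_ a1.2
    · rw [← hd, ← hf]; ring
    · ring
  · refine key _ _ _ _ ?_ ?_ a2.1
    · rw [← hd, ← hf]; ring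
    · ring

theorem ker_int (hKER : KerStatement) (D : Set ℂ) (hD : IsOpen D) (hDb : Bornology.IsBounded D)
    (m : ℕ) (t : ℝ) (ht : 0 < t) (x y : ℂ) :
    Integrable (fun z => Ker D m t x z * Ker D m t z y) := by
  obtain ⟨hm, hb, hz, -⟩ := hKER D hD hDb m t ht
  have hG : ∀ z : ℂ, G t z ≤ 1 / (4 * Real.pi * t) := by
    intro z
    unfold G
    have hpos : 0 < 4 * Real.pi * t := by positivity
    apply div_le_div_of_nonneg_right _ hpos.le
    rw [Real.exp_le_one_iff]
    have : 0 ≤ ‖z‖ ^ 2 / (4 * t) := by positivity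
    rw [neg_div]
    linarith
  have hfin : volume D < ⊤ := hDb.measure_lt_top
  have hi : Integrable (D.indicator (fun _ : ℂ => (1 / (4 * Real.pi * t)) ^ 2)) := by
    rw [integrable_indicator_iff hD.measurableSet]
    exact integrableOn_const hfin.ne
  have hm1 : Measurable (fun z => Ker D m t x z) :=
    hm.comp (measurable_const.prodMk measurable_id)
  have hm2 : Measurable (fun z => Ker D m t z y) :=
    hm.comp (measurable_id.prodMk measurable_const)
  refine hi.mono' (hm1.mul hm2).aestronglyMeasurable (Eventually.of_forall fun z => ?_)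
  by_cases hzD : z ∈ D
  · rw [Set.indicator_of_mem hzD, Real.norm_eq_abs,
      abs_of_nonneg (mul_nonneg (hb x z).1 (hb z y).1), pow_two]
    exact mul_le_mul ((hb x z).2.trans (hG _)) ((hb z y).2.trans (hG _)) (hb z y).1
      (by positivity)
  · rw [Set.indicator_of_notMem hzD, hz x z (Or.inr hzD)]
    simp

theorem int4 (μ : Measure ℂ) (f1 f2 f3 f4 : ℂ → ℝ) (q p r : ℝ) (h1 : Integrable f1 μ)
    (h2 : Integrable f2 μ) (h3 : Integrable f3 μ) (h4 : Integrable f4 μ) :
    Integrable (fun z => f1 z + q * f2 z + p * f3 z + r * f4 z) μ ∧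
    ∫ z, (f1 z + q * f2 z + p * f3 z + r * f4 z) ∂μ =
      ∫ z, f1 z ∂μ + q * ∫ z, f2 z ∂μ + p * ∫ z, f3 z ∂μ + r * ∫ z, f4 z ∂μ := by
  have k2 := h2.const_mul q
  have k3 := h3.const_mul p
  have k4 := h4.const_mul r
  have s2 : Integrable (fun z => f1 z + q * f2 z) μ := h1.add k2
  have s3 : Integrable (fun z => f1 z + q * f2 z + p * f3 z) μ := s2.add k3
  refine ⟨s3.add k4, ?_⟩
  rw [integral_add s3 k4, integral_add s2 k3, integral_add h1 k2, integral_const_mul,
    integral_const_mul, integral_const_mul]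

/-- the composition formula -/
theorem comp (hRFB : RfbStmt) (e : ℂ) (τ : ℝ) (he : ‖e‖ = 1) (K : ℂ → ℂ → ℝ)
    (hI : ∀ x y, Integrable (fun z => K x z * K z y)) (p q : ℝ) (x y : ℂ) :
    IntegrableOn (fun z => (1 / 2 : ℝ) * (kc e τ p 1 K x z * kc e τ 1 q K z y
      + kc e τ p (-1) K x z * kc e τ (-1) q K z y)) (up e τ) ∧
    kc e τ p q (fun x y => ∫ z, K x z * K z y) x y =
      ∫ z in up e τ, (1 / 2 : ℝ) * (kc e τ p 1 K x z * kc e τ 1 q K z y
      + kc e τ p (-1) K x z * kc e τ (-1) q K z y) := by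
  obtain ⟨-, -, -, -, -, -, hmp, hint⟩ := hRFB e τ he
  have hT : ∀ x y, IntegrableOn (fun z => K x z * K z y + K x (rf e τ z) * K (rf e τ z) y)
      (up e τ) := by
    intro x y
    have h1 := hI x y
    have h2 : Integrable (fun z => K x (rf e τ z) * K (rf e τ z) y) :=
      hmp.integrable_comp_of_integrable h1
    exact (h1.add h2).integrableOn
  have hid : (fun z => (1 / 2 : ℝ) * (kc e τ p 1 K x z * kc e τ 1 q K z y
      + kc e τ p (-1) K x z * kc e τ (-1) q K z y)) =
      fun z => ((K x z * K z y + K x (rf e τ z) * K (rf e τ z) y)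
        + q * (K x z * K z (rf e τ y) + K x (rf e τ z) * K (rf e τ z) (rf e τ y)))
        + p * (K (rf e τ x) z * K z y + K (rf e τ x) (rf e τ z) * K (rf e τ z) y)
        + p * q * (K (rf e τ x) z * K z (rf e τ y)
          + K (rf e τ x) (rf e τ z) * K (rf e τ z) (rf e τ y)) := by
    funext z
    unfold kc
    ring
  obtain ⟨j1, j2⟩ := int4 (volume.restrict (up e τ)) _ _ _ _ q p (p * q) (hT x y)
    (hT x (rf e τ y)) (hT (rf e τ x) y) (hT (rf e τ x) (rf e τ y))
  rw [hid]
  refine ⟨j1, ?_⟩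
  rw [j2]
  have hk : kc e τ p q (fun x y => ∫ z, K x z * K z y) x y =
      (∫ z, K x z * K z y) + q * (∫ z, K x z * K z (rf e τ y))
      + p * (∫ z, K (rf e τ x) z * K z y) + p * q * (∫ z, K (rf e τ x) z * K z (rf e τ y)) := rfl
  rw [hk, hint _ (hI x y), hint _ (hI x (rf e τ y)), hint _ (hI (rf e τ x) y),
    hint _ (hI (rf e τ x) (rf e τ y))]

theorem spn (hRFB : RfbStmt) (hKER : KerStatement) : SpnStmt := by
  intro e τ D D' he hD hDb hD' hDb' hPol m
  induction m with
  | zero =>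
    intro t ht x hx y hy p hp q hq
    obtain ⟨-, hinv, hiso, hdist, -⟩ := hRFB e τ he
    have hp' : p = 1 ∨ p = -1 := by simpa using hp
    have hq' : q = 1 ∨ q = -1 := by simpa using hq
    have hGn : ∀ z w : ℂ, ‖z‖ = ‖w‖ → G t z = G t w := by
      intro z w h
      unfold G
      rw [h]
    have g1 : G t (rf e τ x - y) = G t (x - rf e τ y) := by
      apply hGn
      have := hiso x (rf e τ y)
      rw [hinv y] at this
      exact this
    have g2 : G t (rf e τ x - rf e τ y) = G t (x - y) := hGn _ _ (hiso x y)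
    have hpos : 0 ≤ G t (x - rf e τ y) := by
      unfold G
      positivity
    have hle : G t (x - rf e τ y) ≤ G t (x - y) := by
      unfold G
      have h4 : 0 < 4 * Real.pi * t := by positivity
      apply div_le_div_of_nonneg_right _ h4.le
      apply Real.exp_le_exp.mpr
      apply div_le_div_of_nonneg_right _ (by positivity : (0 : ℝ) ≤ 4 * t)
      rw [hdist x y]
      have hx' : 0 < ip e x - τ := sub_pos.mpr hx
      have hy' : 0 < ip e y - τ := sub_pos.mpr hy
      have := mul_pos hx' hy'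
      nlinarith
    have hnn : ∀ (E : Set ℂ) (z : ℂ), 0 ≤ iD E z := by
      intro E z
      unfold iD
      exact Set.indicator_nonneg (fun _ _ => zero_le_one) z
    have hK : ∀ E : Set ℂ, kc e τ p q (Ker E 0 t) x y =
        iD E x * iD E y * G t (x - y) + q * (iD E x * iD E (rf e τ y) * G t (x - rf e τ y))
        + p * (iD E (rf e τ x) * iD E y * G t (x - rf e τ y))
        + p * q * (iD E (rf e τ x) * iD E (rf e τ y) * G t (x - y)) := by
      intro E
      have h1 : kc e τ p q (Ker E 0 t) x y =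
          iD E x * iD E y * G t (x - y) + q * (iD E x * iD E (rf e τ y) * G t (x - rf e τ y))
          + p * (iD E (rf e τ x) * iD E y * G t (rf e τ x - y))
          + p * q * (iD E (rf e τ x) * iD E (rf e τ y) * G t (rf e τ x - rf e τ y)) := rfl
      rw [h1, g1, g2]
    rw [hK D, hK D']
    exact base _ _ _ _ _ _ _ _ _ _ p q (hnn D x) (hnn D _) (hnn D y) (hnn D _) hpos hle
      (hPol x hx).1 (hPol x hx).2 (hPol y hy).1 (hPol y hy).2 hp' hq'
  | succ m ih =>
    intro t ht x hx y hy p hp q hq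
    have ht2 : 0 < t / 2 := by linarith
    obtain ⟨hi, hk⟩ := comp hRFB e τ he (Ker D m (t / 2))
      (fun x y => ker_int hKER D hD hDb m (t / 2) ht2 x y) p q x y
    obtain ⟨hi', hk'⟩ := comp hRFB e τ he (Ker D' m (t / 2))
      (fun x y => ker_int hKER D' hD' hDb' m (t / 2) ht2 x y) p q x y
    have e1 : Ker D (m + 1) t = fun x y => ∫ z, Ker D m (t / 2) x z * Ker D m (t / 2) z y := rfl
    have e2 : Ker D' (m + 1) t = fun x y => ∫ z, Ker D' m (t / 2) x z * Ker D' m (t / 2) z y := rfl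
    rw [e1, e2, hk, hk']
    have hup : MeasurableSet (up e τ) := by
      have hc : Continuous (fun x : ℂ => ip e x) := by
        unfold ip
        fun_prop
      exact (isOpen_lt continuous_const hc).measurableSet
    rw [← Real.norm_eq_abs]
    refine (norm_integral_le_integral_norm _).trans ?_
    refine setIntegral_mono_on hi'.norm hi hup ?_
    intro z hz
    have m1 : (1 : ℝ) ∈ ({1, -1} : Set ℝ) := by simp
    have m2 : (-1 : ℝ) ∈ ({1, -1} : Set ℝ) := by simp
    have a1 := ih (t / 2) ht2 x hx z hz p hp 1 m1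
    have a2 := ih (t / 2) ht2 z hz y hy 1 m1 q hq
    have a3 := ih (t / 2) ht2 x hx z hz p hp (-1) m2
    have a4 := ih (t / 2) ht2 z hz y hy (-1) m2 q hq
    rw [Real.norm_eq_abs, abs_mul]
    have h12 : |(1 / 2 : ℝ)| = 1 / 2 := by norm_num
    rw [h12]
    refine mul_le_mul_of_nonneg_left ?_ (by norm_num)
    refine (abs_add_le _ _).trans ?_
    rw [abs_mul, abs_mul]
    exact add_le_add
      (mul_le_mul a1 a2 (abs_nonneg _) ((abs_nonneg _).trans a1))
      (mul_le_mul a3 a4 (abs_nonneg _) ((abs_nonneg _).trans a3))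

end Pool.Agent.QUD.H37
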